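import Mathlib
import Pool.Agent.H922R2.OPC.Stubs

/-! Keller maps for which a curve with one place at infinity is a connected component of the
preimage of a curve with one place at infinity: the data. -/

set_option autoImplicit false

open MvPolynomial

namespace Pool.Agent.W420.OPC

open Pool.Agent.H922R2.OPC

/-- the data of the theorem: `(P, Q)` is a Keller map which maps the curve `f₁ = 0` into
the curve `f₂ = 0`, both with one place at infinity -/
structure TD (k : Type) [Field k] where
  n₁ : ℕ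
  n₂ : ℕ
  f₁ : B k
  f₂ : B k
  φ₁ : L k
  φ₂ : L k
  ζ₁ : k
  ζ₂ : k
  P : B k
  Q : B k
  r : B k
  h₁ : OP n₁ f₁ φ₁ ζ₁
  h₂ : OP n₂ f₂ φ₂ ζ₂
  hJ : IsUnit (jac P Q)
  hr : sb P Q f₂ = f₁ * r

variable {k : Type} [Field k]

/-- `ev` for the first curve -/
noncomputable def TD.e₁ (D : TD k) : B k →ₐ[k] L k := ev D.n₁ D.φ₁

/-- `ev` for the second curve -/
noncomputable def TD.e₂ (D : TD k) : B k →ₐ[k] L k := ev D.n₂ D.φ₂

/-- `h ↦ h(P, Q)` -/
noncomputable def TD.F (D : TD k) : B k →ₐ[k] B k := sb D.P D.Q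

end Pool.Agent.W420.OPC
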