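import Mathlib
import Pool.Agent.W420.OPC.Defs
import Pool.Agent.H922R2.OPC.M.GFY

set_option autoImplicit false

open MvPolynomial

namespace Pool.Agent.W420.OPC

open Pool.Agent.H922R2.OPC Pool.Agent.H976R.OPC

/-- the value of `(∂f₂/∂y)(P, Q)` -/
theorem gfy2 (k : Type) [Field k] [IsAlgClosed k] [CharZero k] (hM : S_MUL) (D : TD k)
    (a₁ b₁ a₂ b₂ : ℕ) (Ψ₁ Ψ₂ : L k →+* L k) (hb₁ : 0 < b₁) (hb₂ : 0 < b₂)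
    (hΨ₁ : IsPsi a₁ b₁ Ψ₁) (hΨ₂ : IsPsi a₂ b₂ Ψ₂)
    (hW : ∀ (h : B k) (w : ℤ), Ge w (Ψ₂ (D.e₂ h)) → Ge w (Ψ₁ (D.e₁ (D.F h))))
    (hP : Ge (-((b₂ * D.n₂ : ℕ) : ℤ)) (Ψ₁ (D.e₁ D.P)))
    (e : ℕ) (κ : k) (hκ : κ ≠ 0) (hge : Ge (-(e : ℤ)) (D.e₂ (pderiv 1 D.f₂)))
    (hco : (D.e₂ (pderiv 1 D.f₂)).coeff (-(e : ℤ)) = Polynomial.C κ) :
    Ge (-((b₂ * e : ℕ) : ℤ)) (Ψ₁ (D.e₁ (D.F (pderiv 1 D.f₂)))) ∧
    ((Ψ₁ (D.e₁ (D.F (pderiv 1 D.f₂)))).coeff (-((b₂ * e : ℕ) : ℤ))) ^ D.n₂ =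
      Polynomial.C (κ ^ D.n₂) * ((Ψ₁ (D.e₁ D.P)).coeff (-((b₂ * D.n₂ : ℕ) : ℤ))) ^ e := by
  set g := pderiv 1 D.f₂ with hg
  have hG : Ge (-((b₂ * e : ℕ) : ℤ)) (Ψ₁ (D.e₁ (D.F g))) := by
    apply hW
    have := psi_ge hb₂ hΨ₂ hge
    have e1 : (-((b₂ * e : ℕ) : ℤ)) = (b₂ : ℤ) * (-(e : ℤ)) := by push_cast; ring
    rw [e1]; exact this
  refine ⟨hG, ?_⟩
  obtain ⟨c, hc⟩ : ∃ c, c = κ ^ D.n₂ := ⟨_, rfl⟩
  rw [← hc]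
  -- the polynomial h0
  let h0 : B k := g ^ D.n₂ - C c * (X 0) ^ e
  -- e₂ h0
  have he2X : D.e₂ (X 0) = tp (-(D.n₂ : ℤ)) := by
    simp [TD.e₂, ev]
  have he2C : D.e₂ (C c) = HahnSeries.single 0 (Polynomial.C c) := by
    rw [← alg_eq]
    exact AlgHom.commutes D.e₂ _
  have h4 : Ge 0 (HahnSeries.single 0 (Polynomial.C c) : L k) := by
    intro i hi
    exact HahnSeries.coeff_single_of_ne (ne_of_lt hi)
  have hge0 : Ge (-((D.n₂ * e : ℕ) : ℤ) + 1) (D.e₂ h0) := by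
    have h1 := pow_ge hM hge D.n₂
    have h2 : Ge (-(D.n₂ : ℤ)) (tp (k := k) (-(D.n₂ : ℤ))) := by
      intro i hi
      exact HahnSeries.coeff_single_of_ne (ne_of_lt hi)
    have h3 := pow_ge hM h2 e
    have h5 := hM _ _ _ _ _ h4 h3.1
    have e1 : D.e₂ h0 = (D.e₂ g) ^ D.n₂ -
        HahnSeries.single 0 (Polynomial.C c) * (tp (-(D.n₂ : ℤ))) ^ e := by
      simp only [h0, map_sub, map_mul, map_pow, he2X, he2C]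
    rw [e1]
    intro i hi
    have hi' : i ≤ -((D.n₂ * e : ℕ) : ℤ) := by omega
    have q1 : (D.n₂ : ℤ) * (-(e : ℤ)) = -((D.n₂ * e : ℕ) : ℤ) := by push_cast; ring
    have q2 : (0 : ℤ) + (e : ℤ) * (-(D.n₂ : ℤ)) = -((D.n₂ * e : ℕ) : ℤ) := by push_cast; ring
    have q3 : (e : ℤ) * (-(D.n₂ : ℤ)) = -((D.n₂ * e : ℕ) : ℤ) := by push_cast; ring
    rw [q1] at h1
    rw [q2, q3] at h5
    rw [q3] at h3
    rw [HahnSeries.coeff_sub]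
    rcases lt_or_eq_of_le hi' with hlt | heq
    · rw [h1.1 i hlt]
      have := h5.1 i hlt
      rw [this, sub_zero]
    · rw [heq, h1.2, hco, h5.2, h3.2]
      simp [tp, HahnSeries.coeff_single_same, hc]
  have hge1 : Ge (-((b₂ * D.n₂ * e : ℕ) : ℤ) + 1) (Ψ₂ (D.e₂ h0)) := by
    have := psi_ge hb₂ hΨ₂ hge0
    refine Ge.mono this ?_
    have hb' : (1 : ℤ) ≤ b₂ := by exact_mod_cast hb₂
    push_cast
    nlinarith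
  have hge2 := hW h0 _ hge1
  -- F h0
  have hFX : D.F (X 0) = D.P := by simp [TD.F, sb]
  have hFC : D.F (C c) = C c := AlgHom.commutes D.F _
  have he1C : D.e₁ (C c) = HahnSeries.single 0 (Polynomial.C c) := by
    rw [← alg_eq]
    exact AlgHom.commutes D.e₁ _
  have e2 : Ψ₁ (D.e₁ (D.F h0)) = (Ψ₁ (D.e₁ (D.F g))) ^ D.n₂ -
      HahnSeries.single 0 (Polynomial.C c) * (Ψ₁ (D.e₁ D.P)) ^ e := by
    simp only [h0, map_sub, map_mul, map_pow, hFX, hFC, he1C, psi_alg hb₁ hΨ₁]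
  rw [e2] at hge2
  have h7 := pow_ge hM hG D.n₂
  have h8 := pow_ge hM hP e
  have h9 := hM _ _ _ _ _ h4 h8.1
  have q1 : (D.n₂ : ℤ) * (-((b₂ * e : ℕ) : ℤ)) = -((b₂ * D.n₂ * e : ℕ) : ℤ) := by push_cast; ring
  have q2 : (0 : ℤ) + (e : ℤ) * (-((b₂ * D.n₂ : ℕ) : ℤ)) = -((b₂ * D.n₂ * e : ℕ) : ℤ) := by
    push_cast; ring
  have q3 : (e : ℤ) * (-((b₂ * D.n₂ : ℕ) : ℤ)) = -((b₂ * D.n₂ * e : ℕ) : ℤ) := by push_cast; ring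
  rw [q1] at h7
  rw [q2, q3] at h9
  rw [q3] at h8
  have h10 := hge2 (-((b₂ * D.n₂ * e : ℕ) : ℤ)) (by omega)
  rw [HahnSeries.coeff_sub, h7.2, h9.2, h8.2, HahnSeries.coeff_single_same] at h10
  exact sub_eq_zero.1 h10


end Pool.Agent.W420.OPC
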