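import Mathlib
import Pool.Agent.W420.OPC.Defs
import Pool.Agent.H922R2.OPC.M.HPR

set_option autoImplicit false

open MvPolynomial

namespace Pool.Agent.W420.OPC

open Pool.Agent.H922R2.OPC Pool.Agent.Helper363.OPC_HPR

/-- `H'` has no roots -/
theorem hpr2 (k : Type) [Field k] [IsAlgClosed k] [CharZero k] (hSPR : S_SPR k)
    (hEVF : S_EVF k) (hMON : S_MON k) (hJSB : S_JSB k) (D : TD k) (H : Polynomial k)
    (hF : D.F D.f₂ = Polynomial.aeval D.f₁ H)
    (h4 : ∀ (μ : k) (h : B k), sp μ (D.e₂ h) ≠ 0 → ∃ a : Polynomial k, a ≠ 0 ∧ ∃ u v : B k,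
      Polynomial.aeval (X 0) a = u * h + v * (D.f₂ - C μ))
    (h5 : ∃ g : L k, D.e₂ (pderiv 1 D.f₂) * g = 1)
    (h6 : ∀ μ c d : k, ¬ (sp μ (D.e₁ D.P) = HahnSeries.C c ∧ sp μ (D.e₁ D.Q) = HahnSeries.C d))
    (μ : k) (hμ : (Polynomial.derivative H).eval μ = 0) : False := by
  obtain ⟨R, hR⟩ := hSPR μ
  set S : B k →ₐ[k] LaurentSeries k := (sA μ R hR).comp D.e₁ with hS
  have hSa : ∀ h, S h = sp μ (D.e₁ h) := fun h => hR _
  have hSf : S D.f₁ = algebraMap k (LaurentSeries k) μ := by
    rw [hSa]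
    have : D.e₁ D.f₁ = lam := hEVF _ _ _ _ D.h₁
    rw [this, sp_lam]
  have hSG : ∀ G : Polynomial k, S (Polynomial.aeval D.f₁ G) =
      algebraMap k (LaurentSeries k) (G.eval μ) := by
    intro G
    rw [← Polynomial.aeval_algHom_apply, hSf,
      Polynomial.aeval_algebraMap_apply_eq_algebraMap_eval]
  -- Jacobians
  have hFX : D.F (X 0) = D.P := by
    unfold TD.F sb
    simp
  have hFY : D.F (X 1) = D.Q := by
    unfold TD.F sb
    simp
  have hJ1 : jac (D.F D.f₂) D.P = - (D.F (pderiv 1 D.f₂) * jac D.P D.Q) := by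
    have h := hJSB D.P D.Q D.f₂ (X 0)
    have h' : jac D.f₂ (X 0 : B k) = - pderiv 1 D.f₂ := by
      unfold jac
      rw [pderiv_X_self, pderiv_X_of_ne (by decide : (0 : Fin 2) ≠ 1)]
      ring
    rw [h'] at h
    have h'' : sb D.P D.Q (X 0) = D.P := hFX
    rw [h''] at h
    show jac (sb D.P D.Q D.f₂) D.P = _
    rw [h, map_neg]
    show - (sb D.P D.Q) _ * _ = - ((sb D.P D.Q) _ * _)
    ring
  have hJ2 : jac (D.F D.f₂) D.P =
      Polynomial.aeval D.f₁ (Polynomial.derivative H) * jac D.f₁ D.P := by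
    rw [hF]
    unfold jac
    rw [pderiv_aeval, pderiv_aeval]
    ring
  have h7 : S (D.F (pderiv 1 D.f₂)) = 0 := by
    have h8 : S (D.F (pderiv 1 D.f₂) * jac D.P D.Q) = 0 := by
      have h9 : D.F (pderiv 1 D.f₂) * jac D.P D.Q =
          - (Polynomial.aeval D.f₁ (Polynomial.derivative H) * jac D.f₁ D.P) := by
        rw [← hJ2, hJ1, neg_neg]
      rw [h9, map_neg, map_mul, hSG, hμ, map_zero, zero_mul, neg_zero]
    rw [map_mul] at h8
    rcases mul_eq_zero.mp h8 with h | h
    · exact h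
    · exact absurd h (D.hJ.map S).ne_zero
  -- the value of `f₂` on the image
  set ν : k := H.eval μ with hν
  have h10 : S (D.F D.f₂) = algebraMap k (LaurentSeries k) ν := by
    rw [hF, hSG]
  obtain ⟨R', hR'⟩ := hSPR ν
  have h11 : sp ν (D.e₂ (pderiv 1 D.f₂)) ≠ 0 := by
    obtain ⟨g, hg⟩ := h5
    intro h0
    have := congrArg R' hg
    rw [map_mul, hR' (D.e₂ _), h0, zero_mul, map_one] at this
    exact zero_ne_one this
  obtain ⟨a, ha, u, v, huv⟩ := h4 ν _ h11
  have h12 : Polynomial.aeval (S D.P) a = 0 := by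
    have h13 : S (D.F (Polynomial.aeval (X 0) a)) = Polynomial.aeval (S D.P) a := by
      rw [← Polynomial.aeval_algHom_apply, hFX, ← Polynomial.aeval_algHom_apply]
    rw [← h13, huv, map_add, map_mul, map_mul, map_add, map_mul, map_mul, h7, mul_zero, zero_add,
      map_sub, map_sub, h10]
    have h14 : S (D.F (C ν)) = algebraMap k (LaurentSeries k) ν := by
      have : D.F (C ν) = algebraMap k (B k) ν := AlgHom.commutes D.F ν
      rw [this, AlgHom.commutes]
    rw [h14, sub_self, mul_zero]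
  have h15 : IsIntegral k (S D.P) := by
    rw [← isAlgebraic_iff_isIntegral]
    exact ⟨a, ha, h12⟩
  obtain ⟨c, hc⟩ := const_of_integral h15
  obtain ⟨b, hb⟩ := hMON _ _ _ _ D.h₂
  have hn : 0 < D.n₂ := D.h₂.1
  have h16 : IsIntegral k (S D.Q) := by
    refine ⟨Polynomial.X ^ D.n₂ + (∑ j ∈ Finset.range D.n₂,
      Polynomial.C ((b j).eval c) * Polynomial.X ^ j - Polynomial.C ν), ?_, ?_⟩
    · apply Polynomial.monic_X_pow_add
      refine lt_of_le_of_lt (Polynomial.degree_sub_le _ _) ?_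
      rw [max_lt_iff]
      constructor
      · refine lt_of_le_of_lt (Polynomial.degree_sum_le _ _) ?_
        rw [Finset.sup_lt_iff (by exact WithBot.bot_lt_coe _)]
        intro j hj
        refine lt_of_le_of_lt (Polynomial.degree_C_mul_X_pow_le _ _) ?_
        exact_mod_cast Finset.mem_range.mp hj
      · refine lt_of_le_of_lt Polynomial.degree_C_le ?_
        exact_mod_cast hn
    · rw [← Polynomial.aeval_def]
      have h17 : S (D.F D.f₂) = S D.Q ^ D.n₂ + ∑ j ∈ Finset.range D.n₂,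
          algebraMap k (LaurentSeries k) ((b j).eval c) * S D.Q ^ j := by
        rw [hb, map_add, map_pow, hFY, map_add, map_pow, map_sum, map_sum]
        congr 1
        refine Finset.sum_congr rfl fun j _ => ?_
        rw [map_mul, map_mul, map_pow, map_pow, hFY, ← Polynomial.aeval_algHom_apply,
          ← Polynomial.aeval_algHom_apply, hFX, hc,
          Polynomial.aeval_algebraMap_apply_eq_algebraMap_eval]
      rw [h10] at h17
      simp only [map_add, map_sub, map_sum, map_mul, map_pow, Polynomial.aeval_X,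
        Polynomial.aeval_C]
      rw [← add_sub_assoc, ← h17, sub_self]
  obtain ⟨d, hd⟩ := const_of_integral h16
  exact h6 μ c d ⟨by rw [← hSa, hc, algK], by rw [← hSa, hd, algK]⟩


end Pool.Agent.W420.OPC
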