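import Mathlib
import Pool.Agent.W420.OPC.Defs
import Pool.Agent.H922R2.OPC.M.ITG

set_option autoImplicit false

open MvPolynomial

namespace Pool.Agent.W420.OPC

open Pool.Agent.H922R2.OPC Pool.Agent.H464R2.OPCITG

/-- integrality -/
theorem itg2 (k : Type) [Field k] [IsAlgClosed k] [CharZero k] (S_mul : S_MUL) (S_prg : S_PRG k)
    (S_rot : S_ROT k) (S_evf : S_EVF k) (S_inj : S_INJ k) (S_chr : S_CHR k) (S_mon : S_MON k)
    (D : TD k) (N : ℕ) (hn2 : 0 < N) (c π : k) (hc : c ≠ 0) (hπ : π ≠ 0)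
    (hF : D.F D.f₂ = C c * D.f₁) (hP1 : Ge (-(N : ℤ)) (D.e₁ D.P))
    (hP2 : (D.e₁ D.P).coeff (-(N : ℤ)) = Polynomial.C π) :
    ∀ z : B k, (D.F : B k →ₐ[k] B k).toRingHom.IsIntegralElem z := by
  have ev1 : ev D.n₁ D.φ₁ D.f₁ = lam := S_evf _ _ _ _ D.h₁
  have inj := S_inj S_evf S_mon _ _ _ _ D.h₁
  have hn1 : 0 < D.n₁ := D.h₁.1
  have chr : ∀ l, ∃ g : B k, _ := S_chr S_rot S_evf S_mon _ _ _ _ D.h₁ D.P
  choose g hg using chr
  have he : ∀ h, D.e₁ h = ev D.n₁ D.φ₁ h := fun _ => rfl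
  rw [he] at hP1 hP2
  set s : ℕ → L k := fun i => rot (D.ζ₁ ^ i) (ev D.n₁ D.φ₁ D.P) with hs
  set Pi : Polynomial (L k) := ∏ i ∈ Finset.range D.n₁, (Polynomial.X - Polynomial.C (s i)) with hPi
  have hsge : ∀ i < D.n₁, Ge (-(N : ℤ)) (s i) := fun i _ => rot_ge _ _ _ hP1
  -- the relation
  have hrel : ∑ l ∈ Finset.range (D.n₁ + 1), aeval ![X 0, D.f₁] (g l) * D.P ^ l = 0 := by
    apply inj
    rw [map_zero, map_sum]
    have h1 : Pi.natDegree < D.n₁ + 1 := by
      rw [hPi]
      refine lt_of_le_of_lt (Polynomial.natDegree_prod_le _ _) ?_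
      refine lt_of_le_of_lt (Finset.sum_le_card_nsmul _ _ 1 ?_) ?_
      · intro i _
        exact Polynomial.natDegree_X_sub_C_le _
      · simp
    have h2 := Polynomial.eval_eq_sum_range' h1 (ev D.n₁ D.φ₁ D.P)
    have h3 : Pi.eval (ev D.n₁ D.φ₁ D.P) = 0 := by
      rw [hPi, Polynomial.eval_prod]
      apply Finset.prod_eq_zero (Finset.mem_range.2 hn1)
      rw [hs]
      simp only [pow_zero, rot_one, Polynomial.eval_sub, Polynomial.eval_X, Polynomial.eval_C, sub_self]
    rw [h3] at h2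
    rw [h2]
    apply Finset.sum_congr rfl
    intro l _
    rw [map_mul, map_pow, ← hg l]
  -- the coefficients
  have hco : ∀ l i, (T (g l)).coeff i = (Pi.coeff l).coeff (-((D.n₁ * i : ℕ) : ℤ)) := by
    intro l i
    rw [← coeff_key D.n₁ hn1 D.f₁ D.φ₁ ev1 (g l) i, ← hg l]
  have hvan : ∀ l i, l ≤ D.n₁ → (D.n₁ - l) * N < D.n₁ * i → (T (g l)).coeff i = 0 := by
    intro l i hl hi
    rw [hco]
    apply S_prg S_mul D.n₁ s (-(N : ℤ)) hsge l hl
    have h1 : (((D.n₁ - l) * N : ℕ) : ℤ) < ((D.n₁ * i : ℕ) : ℤ) := by exact_mod_cast hi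
    rw [Nat.cast_mul, Nat.cast_sub hl] at h1
    linarith
  set γ : k := ∏ i ∈ Finset.range D.n₁, (-((D.ζ₁ ^ i) ^ (-(N : ℤ)) * π)) with hγ
  have hγ0 : γ ≠ 0 := by
    rw [hγ, Finset.prod_ne_zero_iff]
    intro i _
    have hz : D.ζ₁ ≠ 0 := D.h₁.2.1.ne_zero hn1.ne'
    exact neg_ne_zero.2 (mul_ne_zero (zpow_ne_zero _ (pow_ne_zero _ hz)) hπ)
  have hlead : (T (g 0)).coeff N = Polynomial.C γ := by
    rw [hco, Polynomial.coeff_zero_eq_eval_zero, hPi, Polynomial.eval_prod]
    have h1 : ∀ i ∈ Finset.range D.n₁, Polynomial.eval 0 (Polynomial.X - Polynomial.C (s i)) = - s i := by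
      intro i _
      simp
    rw [Finset.prod_congr rfl h1]
    have h2 := (prod_low S_mul D.n₁ (fun i => - s i) (-(N : ℤ)) (by
      intro i hi j hj
      rw [HahnSeries.coeff_neg, hsge i hi j hj, neg_zero])).2
    have e : ((D.n₁ : ℤ) * (-(N : ℤ))) = -((D.n₁ * N : ℕ) : ℤ) := by push_cast; ring
    rw [e] at h2
    rw [h2, hγ, map_prod]
    apply Finset.prod_congr rfl
    intro i _
    rw [HahnSeries.coeff_neg, hs]
    simp only
    rw [rot_coeff, hP2, map_neg, map_mul]
  -- the polynomial for `x`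
  have hf1 : D.F (C c⁻¹ * D.f₂) = D.f₁ := by
    rw [map_mul, hF, ← mul_assoc]
    have h1 : D.F (C c⁻¹) = C c⁻¹ := by
      rw [← MvPolynomial.algebraMap_eq]
      exact D.F.commutes _
    rw [h1, ← map_mul, inv_mul_cancel₀ hc, map_one, one_mul]
  set φ' : Polynomial k →+* B k := (Polynomial.aeval (C c⁻¹ * D.f₂) : Polynomial k →ₐ[k] B k).toRingHom with hφ'
  set p : Polynomial (B k) := ∑ l ∈ Finset.range (D.n₁ + 1), (T (g l)).map φ' * Polynomial.C ((X 0 : B k) ^ l) with hp
  have hFX0 : D.F (X 0) = D.P := by simp [TD.F, sb]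
  have hpe : Polynomial.eval₂ D.F.toRingHom (X 0) p = 0 := by
    rw [hp, Polynomial.eval₂_finsetSum, ← hrel]
    apply Finset.sum_congr rfl
    intro l _
    rw [Polynomial.eval₂_mul, Polynomial.eval₂_C, Polynomial.eval₂_map]
    congr 1
    · have h2 : (Polynomial.eval₂RingHom (D.F.toRingHom.comp φ') (X 0 : B k)).comp (T : B k →ₐ[k] _).toRingHom =
          (aeval ![X 0, D.f₁] : B k →ₐ[k] B k).toRingHom := by
        apply MvPolynomial.ringHom_ext
        · intro c
          have h3 : D.F (algebraMap k (B k) c) = algebraMap k (B k) c := D.F.commutes c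
          simp [T, hφ']
        · intro j
          fin_cases j
          · simp [T]
          · simp [T, hφ']
            rw [hF, ← mul_assoc, ← map_mul, inv_mul_cancel₀ hc, map_one, one_mul]
      exact congrArg (fun r => r (g l)) h2
    · have h4 : D.F.toRingHom ((X 0 : B k) ^ l) = D.F ((X 0) ^ l) := rfl
      rw [h4, map_pow, hFX0]
  have hpc : ∀ i, p.coeff i = ∑ l ∈ Finset.range (D.n₁ + 1), φ' ((T (g l)).coeff i) * (X 0 : B k) ^ l := by
    intro i
    rw [hp, Polynomial.finsetSum_coeff]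
    apply Finset.sum_congr rfl
    intro l _
    rw [Polynomial.coeff_mul_C, Polynomial.coeff_map]
  have hp1 : p.natDegree ≤ N := by
    rw [Polynomial.natDegree_le_iff_coeff_eq_zero]
    intro i hi
    rw [hpc]
    apply Finset.sum_eq_zero
    intro l hl
    rw [hvan l i (by rw [Finset.mem_range] at hl; omega) ?_, map_zero, zero_mul]
    calc (D.n₁ - l) * N ≤ D.n₁ * N := Nat.mul_le_mul_right _ (Nat.sub_le _ _)
      _ < D.n₁ * i := Nat.mul_lt_mul_of_pos_left hi hn1
  have hp2 : p.coeff N = C γ := by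
    rw [hpc, Finset.sum_eq_single 0]
    · rw [hlead, pow_zero, mul_one, hφ']
      simp
    · intro l hl hl0
      rw [hvan l N (by rw [Finset.mem_range] at hl; omega) ?_, map_zero, zero_mul]
      apply Nat.mul_lt_mul_of_pos_right _ hn2
      omega
    · intro h; exact absurd (Finset.mem_range.2 (Nat.succ_pos _)) h
  have hx : D.F.toRingHom.IsIntegralElem (X 0) := by
    refine ⟨Polynomial.C (C γ⁻¹) * p, ?_, ?_⟩
    · apply Polynomial.monic_of_natDegree_le_of_coeff_eq_one N
      · exact (Polynomial.natDegree_C_mul_le _ _).trans hp1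
      · rw [Polynomial.coeff_C_mul, hp2, ← map_mul, inv_mul_cancel₀ hγ0, map_one]
    · rw [Polynomial.eval₂_mul, hpe, mul_zero]
  -- `f₁` is integral
  have hf1i : D.F.toRingHom.IsIntegralElem D.f₁ := by
    rw [← hf1]
    exact D.F.toRingHom.isIntegralElem_map
  -- `y`
  obtain ⟨a, ha⟩ := S_mon _ _ _ _ D.h₁
  have hy : D.F.toRingHom.IsIntegralElem (X 1) := by
    apply gen D.F.toRingHom (X 1) D.n₁ (fun j => Polynomial.aeval (X 0) (a j) - if j = 0 then D.f₁ else 0)
    · intro j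
      apply RingHom.IsIntegralElem.sub _ (intAeval D.F (X 0) hx (a j))
      split_ifs
      · exact hf1i
      · exact D.F.toRingHom.isIntegralElem_zero
    · simp only [sub_mul, ite_mul, zero_mul, Finset.sum_sub_distrib]
      rw [Finset.sum_ite_eq', if_pos (Finset.mem_range.2 hn1), pow_zero, mul_one]
      rw [← add_sub_assoc, ← ha, sub_self]
  intro z
  induction z using MvPolynomial.induction_on with
  | C c =>
    have h1 : D.F.toRingHom (C c) = C c := by
      have h2 : D.F (algebraMap k (B k) c) = algebraMap k (B k) c := D.F.commutes c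
      exact h2
    rw [← h1]
    exact D.F.toRingHom.isIntegralElem_map
  | add p q hp hq => exact RingHom.IsIntegralElem.add _ hp hq
  | mul_X p i hp =>
    apply RingHom.IsIntegralElem.mul _ hp
    fin_cases i
    · exact hx
    · exact hy


end Pool.Agent.W420.OPC
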