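import Mathlib
import Pool.Agent.W420.OPC.Defs
import Pool.Agent.H922R2.OPC.M.LCX

set_option autoImplicit false

open MvPolynomial

namespace Pool.Agent.W420.OPC

open Pool.Agent.H922R2.OPC Pool.Agent.H382R2.OPC

variable {k : Type} [Field k]

theorem psi_low2 {a b : ℕ} (hb : 0 < b) {Ψ : L k →+* L k} (hΨ : IsPsi a b Ψ)
    {u : L k} {e' : ℕ} {κ' : k} (h1 : Ge (-(e' : ℤ)) u)
    (h2 : u.coeff (-(e' : ℤ)) = Polynomial.C κ') :
    Ge (-((b * e' : ℕ) : ℤ)) (Ψ u) ∧ (Ψ u).coeff (-((b * e' : ℕ) : ℤ)) = Polynomial.C κ' := by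
  rcases Nat.eq_zero_or_pos a with ha | ha
  · subst ha
    have hbz : (0 : ℤ) < b := by exact_mod_cast hb
    constructor
    · intro w hw
      ext j
      rw [hΨ u w j]
      split_ifs with hd
      · have hlt : (w - (0 : ℕ) * j) / b < -(e' : ℤ) := by
          apply Int.ediv_lt_of_lt_mul hbz
          push_cast at hw ⊢
          nlinarith
        rw [h1 _ hlt]
      · simp
    · ext j
      rw [hΨ u _ j]
      have e1 : (-((b * e' : ℕ) : ℤ) - ((0 : ℕ) : ℤ) * (j : ℤ)) = b * (-(e' : ℤ)) := by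
        push_cast; ring
      rw [e1, if_pos (Dvd.intro _ rfl), Int.mul_ediv_cancel_left _ hbz.ne', h2]
  · exact psi_low ha hb hΨ h1 h2

/-- the equation for the lowest terms -/
theorem lcx2 (k : Type) [Field k] [IsAlgClosed k] [CharZero k] (hM : S_MUL) (D : TD k)
    (a b₁ b : ℕ) (Ψ : L k →+* L k) (hb₁ : 0 < b₁) (hb : 0 < b) (hΨ : IsPsi a b₁ Ψ)
    (dX dT : Derivation k (L k) (L k))
    (hdX : ∀ h w, (dX h).coeff w = Polynomial.derivative (h.coeff w))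
    (hdT : ∀ h w, (dT h).coeff w = ((w + 1 : ℤ) : Polynomial k) * h.coeff (w + 1))
    (c : k) (hc : c ≠ 0)
    (heq : (dX (Ψ (D.e₁ (D.F D.f₂))) * dT (Ψ (D.e₁ D.P)) - dT (Ψ (D.e₁ (D.F D.f₂))) *
      dX (Ψ (D.e₁ D.P))) * Ψ (D.e₁ (pderiv 1 D.f₁)) =
      HahnSeries.single ((a : ℤ) - ((b₁ * D.n₁ : ℕ) : ℤ) - 1) (Polynomial.C c) *
      Ψ (D.e₁ (D.F (pderiv 1 D.f₂))))
    (hG1 : Ψ (D.e₁ (D.F D.f₂)) = HahnSeries.single (a : ℤ) Polynomial.X * Ψ (D.e₁ D.r))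
    (hP : Ge (-((b * D.n₂ : ℕ) : ℤ)) (Ψ (D.e₁ D.P))) (hr : Ge 0 (Ψ (D.e₁ D.r)))
    (hA0 : ((Ψ (D.e₁ D.P)).coeff (-((b * D.n₂ : ℕ) : ℤ))).coeff 0 ≠ 0)
    (hR0 : ((Ψ (D.e₁ D.r)).coeff 0).coeff 0 ≠ 0)
    (e' : ℕ) (κ' : k) (hκ' : κ' ≠ 0) (hu1 : Ge (-(e' : ℤ)) (D.e₁ (pderiv 1 D.f₁)))
    (hu2 : (D.e₁ (pderiv 1 D.f₁)).coeff (-(e' : ℤ)) = Polynomial.C κ')
    (e : ℕ) (κ : k) (hκ : κ ≠ 0)
    (hV1 : Ge (-((b * e : ℕ) : ℤ)) (Ψ (D.e₁ (D.F (pderiv 1 D.f₂)))))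
    (hV2 : ((Ψ (D.e₁ (D.F (pderiv 1 D.f₂)))).coeff (-((b * e : ℕ) : ℤ))) ^ D.n₂ =
      Polynomial.C (κ ^ D.n₂) * ((Ψ (D.e₁ D.P)).coeff (-((b * D.n₂ : ℕ) : ℤ))) ^ e) :
    ∃ c' : k, c' ≠ 0 ∧
    (((b * D.n₂ : ℕ) : Polynomial k) * (((Ψ (D.e₁ D.r)).coeff 0) *
      ((Ψ (D.e₁ D.P)).coeff (-((b * D.n₂ : ℕ) : ℤ))) +
      Polynomial.X * Polynomial.derivative ((Ψ (D.e₁ D.r)).coeff 0) *
        ((Ψ (D.e₁ D.P)).coeff (-((b * D.n₂ : ℕ) : ℤ)))) +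
      (a : Polynomial k) * (Polynomial.X * ((Ψ (D.e₁ D.r)).coeff 0) *
        Polynomial.derivative ((Ψ (D.e₁ D.P)).coeff (-((b * D.n₂ : ℕ) : ℤ))))) ^ D.n₂ =
      Polynomial.C c' * ((Ψ (D.e₁ D.P)).coeff (-((b * D.n₂ : ℕ) : ℤ))) ^ e := by
  have hn2 : 0 < D.n₂ := D.h₂.1
  set R := (Ψ (D.e₁ D.r)).coeff 0 with hRdef
  set A := (Ψ (D.e₁ D.P)).coeff (-((b * D.n₂ : ℕ) : ℤ)) with hAdef
  set T := Ψ (D.e₁ D.r) with hT
  set G2 := Ψ (D.e₁ D.P) with hG2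
  set G1 := Ψ (D.e₁ (D.F D.f₂)) with hG1def
  set V := Ψ (D.e₁ (D.F (pderiv 1 D.f₂))) with hV
  set E := V.coeff (-((b * e : ℕ) : ℤ)) with hE
  obtain ⟨hS1, hS2⟩ := psi_low2 hb₁ hΨ hu1 hu2
  set S := Ψ (D.e₁ (pderiv 1 D.f₁)) with hSdef
  -- lowest terms of G1
  have hs : Ge (a : ℤ) (HahnSeries.single (a : ℤ) Polynomial.X : L k) := by
    intro i hi
    exact HahnSeries.coeff_single_of_ne hi.ne
  have hs' : (HahnSeries.single (a : ℤ) Polynomial.X : L k).coeff (a : ℤ) = Polynomial.X :=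
    HahnSeries.coeff_single_same _ _
  obtain ⟨g1, g1'⟩ := hM (Polynomial k) (a : ℤ) 0 _ T hs hr
  rw [← hG1, add_zero] at g1
  rw [← hG1, add_zero, hs'] at g1'
  -- dX G1
  have x1 : Ge (a : ℤ) (dX G1) := by
    intro i hi
    rw [hdX, g1 i hi, Polynomial.derivative_zero]
  have x1' : (dX G1).coeff (a : ℤ) = R + Polynomial.X * Polynomial.derivative R := by
    rw [hdX, g1', Polynomial.derivative_mul, Polynomial.derivative_X, one_mul]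
  have t1 : Ge ((a : ℤ) - 1) (dT G1) := by
    intro i hi
    rw [hdT, g1 (i + 1) (by omega), mul_zero]
  have t1' : (dT G1).coeff ((a : ℤ) - 1) = (a : Polynomial k) * (Polynomial.X * R) := by
    rw [hdT, sub_add_cancel, g1']
    norm_cast
  have x2 : Ge (-((b * D.n₂ : ℕ) : ℤ)) (dX G2) := by
    intro i hi
    rw [hdX, hP i hi, Polynomial.derivative_zero]
  have x2' : (dX G2).coeff (-((b * D.n₂ : ℕ) : ℤ)) = Polynomial.derivative A := by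
    rw [hdX]
  have t2 : Ge (-((b * D.n₂ : ℕ) : ℤ) - 1) (dT G2) := by
    intro i hi
    rw [hdT, hP (i + 1) (by omega), mul_zero]
  have t2' : (dT G2).coeff (-((b * D.n₂ : ℕ) : ℤ) - 1) =
      -((b * D.n₂ : ℕ) : Polynomial k) * A := by
    rw [hdT, sub_add_cancel]
    push_cast
    rfl
  -- products
  obtain ⟨p1, p1'⟩ := hM (Polynomial k) (a : ℤ) (-((b * D.n₂ : ℕ) : ℤ) - 1) _ _ x1 t2
  obtain ⟨p2, p2'⟩ := hM (Polynomial k) ((a : ℤ) - 1) (-((b * D.n₂ : ℕ) : ℤ)) _ _ t1 x2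
  have ei : (a : ℤ) - 1 + (-((b * D.n₂ : ℕ) : ℤ)) = (a : ℤ) + (-((b * D.n₂ : ℕ) : ℤ) - 1) := by
    ring
  rw [ei] at p2 p2'
  set br : Polynomial k := ((b * D.n₂ : ℕ) : Polynomial k) * (R * A +
      Polynomial.X * Polynomial.derivative R * A) +
      (a : Polynomial k) * (Polynomial.X * R * Polynomial.derivative A) with hbr
  set W := dX G1 * dT G2 - dT G1 * dX G2 with hW
  have w1 : Ge ((a : ℤ) + (-((b * D.n₂ : ℕ) : ℤ) - 1)) W := ge_sub p1 p2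
  have w1' : W.coeff ((a : ℤ) + (-((b * D.n₂ : ℕ) : ℤ) - 1)) = -br := by
    rw [hW, HahnSeries.coeff_sub, p1', p2', x1', t2', t1', x2', hbr]
    ring
  obtain ⟨q1, q1'⟩ := hM (Polynomial k) _ _ _ _ w1 hS1
  rw [w1', hS2] at q1'
  -- right side
  have hs2 : Ge ((a : ℤ) - ((b₁ * D.n₁ : ℕ) : ℤ) - 1)
      (HahnSeries.single ((a : ℤ) - ((b₁ * D.n₁ : ℕ) : ℤ) - 1) (Polynomial.C c) : L k) := by
    intro i hi
    exact HahnSeries.coeff_single_of_ne hi.ne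
  obtain ⟨r1, r1'⟩ := hM (Polynomial k) _ _ _ _ hs2 hV1
  rw [HahnSeries.coeff_single_same] at r1'
  rw [← heq] at r1 r1'
  -- nonvanishing
  have hbr0 : br ≠ 0 := by
    intro h0
    have h1 : br.coeff 0 = ((b * D.n₂ : ℕ) : k) * (R.coeff 0 * A.coeff 0) := by
      rw [hbr, Polynomial.coeff_add, Polynomial.mul_coeff_zero, Polynomial.coeff_add,
        Polynomial.mul_coeff_zero, Polynomial.mul_coeff_zero, Polynomial.mul_coeff_zero,
        Polynomial.mul_coeff_zero, Polynomial.mul_coeff_zero, Polynomial.mul_coeff_zero,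
        Polynomial.coeff_X_zero]
      rw [Polynomial.natCast_coeff_zero]
      ring
    rw [h0, Polynomial.coeff_zero] at h1
    have h2 : ((b * D.n₂ : ℕ) : k) ≠ 0 := by
      exact_mod_cast (Nat.mul_pos hb hn2).ne'
    exact mul_ne_zero h2 (mul_ne_zero hR0 hA0) h1.symm
  have hA : A ≠ 0 := by
    intro h0
    rw [h0] at hA0
    simp at hA0
  have hE0 : E ≠ 0 := by
    intro h0
    rw [h0, zero_pow hn2.ne'] at hV2
    exact mul_ne_zero (Polynomial.C_ne_zero.2 (pow_ne_zero _ hκ)) (pow_ne_zero _ hA) hV2.symm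
  have hl : -br * Polynomial.C κ' ≠ 0 := mul_ne_zero (neg_ne_zero.2 hbr0) (Polynomial.C_ne_zero.2 hκ')
  have hr' : Polynomial.C c * E ≠ 0 := mul_ne_zero (Polynomial.C_ne_zero.2 hc) hE0
  have key : -br * Polynomial.C κ' = Polynomial.C c * E := by
    rcases lt_trichotomy ((a : ℤ) + (-((b * D.n₂ : ℕ) : ℤ) - 1) + -((b₁ * e' : ℕ) : ℤ))
      ((a : ℤ) - ((b₁ * D.n₁ : ℕ) : ℤ) - 1 + -((b * e : ℕ) : ℤ)) with h | h | h
    · exact absurd (q1'.symm.trans (r1 _ h)) hl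
    · rw [h] at q1'
      exact q1'.symm.trans r1'
    · exact absurd (r1'.symm.trans (q1 _ h)) hr'
  refine ⟨(-(c * κ / κ')) ^ D.n₂, pow_ne_zero _ (neg_ne_zero.2 (div_ne_zero (mul_ne_zero hc hκ) hκ')), ?_⟩
  have k1 : br = Polynomial.C (-(c / κ')) * E := by
    have h1 : br = -(Polynomial.C κ'⁻¹ * (-br * Polynomial.C κ')) := by
      have : Polynomial.C κ'⁻¹ * Polynomial.C κ' = 1 := by
        rw [← Polynomial.C_mul, inv_mul_cancel₀ hκ', Polynomial.C_1]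
      linear_combination (-br) * this
    rw [h1, key, ← mul_assoc, ← Polynomial.C_mul, ← neg_mul, ← Polynomial.C_neg]
    congr 2
    field_simp
  rw [k1, mul_pow, hV2, ← mul_assoc, ← Polynomial.C_pow, ← Polynomial.C_mul, ← mul_pow]
  congr 3
  field_simp


end Pool.Agent.W420.OPC
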