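import Mathlib
import Pool.Agent.W420.OPC.Defs

set_option autoImplicit false

open MvPolynomial

namespace Pool.Agent.W420.OPC

open Pool.Agent.H922R2.OPC

variable {k : Type} [Field k]

/-- coefficients after a further substitution `z ↦ z^n` -/
theorem psi_scale {a b n : ℕ} (hn : 0 < n) {Ψ Ψ₁ : L k →+* L k} (hΨ : IsPsi a b Ψ)
    (hΨ₁ : IsPsi (a * n) (b * n) Ψ₁) (h : L k) (w : ℤ) :
    (Ψ₁ h).coeff ((n : ℤ) * w) = (Ψ h).coeff w := by
  ext j
  rw [hΨ₁, hΨ]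
  have hn' : (n : ℤ) ≠ 0 := by exact_mod_cast hn.ne'
  have e1 : (n : ℤ) * w - ((a * n : ℕ) : ℤ) * j = (n : ℤ) * (w - a * j) := by push_cast; ring
  have e2 : ((b * n : ℕ) : ℤ) = (n : ℤ) * b := by push_cast; ring
  rw [e1, e2]
  by_cases hd : (b : ℤ) ∣ w - a * j
  · rw [if_pos hd, if_pos (mul_dvd_mul_left _ hd), Int.mul_ediv_mul_of_pos _ _ (by exact_mod_cast hn)]
  · rw [if_neg hd, if_neg]
    intro h1
    exact hd (Int.dvd_of_mul_dvd_mul_left hn' h1)

theorem psi_scale_ge {a b n : ℕ} (hn : 0 < n) {Ψ Ψ₁ : L k →+* L k} (hΨ : IsPsi a b Ψ)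
    (hΨ₁ : IsPsi (a * n) (b * n) Ψ₁) {h : L k} {w : ℤ} (hw : Ge w (Ψ h)) :
    Ge ((n : ℤ) * w) (Ψ₁ h) := by
  intro i hi
  have hn' : (0 : ℤ) < n := by exact_mod_cast hn
  by_cases hd : (n : ℤ) ∣ i
  · obtain ⟨v, rfl⟩ := hd
    rw [psi_scale hn hΨ hΨ₁]
    exact hw v (lt_of_mul_lt_mul_left hi hn'.le)
  · ext j
    rw [hΨ₁, Polynomial.coeff_zero, if_neg]
    intro h1
    apply hd
    have h2 : (n : ℤ) ∣ ((b * n : ℕ) : ℤ) := by push_cast; exact dvd_mul_left _ _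
    have h3 := h2.trans h1
    have h4 : (n : ℤ) ∣ ((a * n : ℕ) : ℤ) * j := by
      push_cast
      exact Dvd.dvd.mul_right (dvd_mul_left _ _) _
    have h5 := dvd_add h3 h4
    rwa [sub_add_cancel] at h5

/-- the substitution `t ↦ z^b` exists -/
theorem psi_exists (b : ℕ) (hb : 0 < b) : ∃ Ψ : L k →+* L k, IsPsi 0 b Ψ := by
  have hb' : (0 : ℤ) < b := by exact_mod_cast hb
  let f : ℤ →+ ℤ := AddMonoidHom.mulLeft (b : ℤ)
  have hf : ∀ i, f i = (b : ℤ) * i := fun i => rfl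
  have hinj : Function.Injective f := by
    intro i j hij
    rw [hf, hf] at hij
    exact mul_left_cancel₀ hb'.ne' hij
  have hmono : ∀ g g' : ℤ, f g ≤ f g' ↔ g ≤ g' := by
    intro g g'
    rw [hf, hf]
    exact mul_le_mul_iff_right₀ hb'
  refine ⟨HahnSeries.embDomainRingHom f hinj hmono, ?_⟩
  intro h w j
  have key : (HahnSeries.embDomainRingHom (R := Polynomial k) f hinj hmono h).coeff w =
      if (b : ℤ) ∣ w then h.coeff (w / b) else 0 := by
    by_cases hd : (b : ℤ) ∣ w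
    · rw [if_pos hd]
      obtain ⟨v, rfl⟩ := hd
      rw [Int.mul_ediv_cancel_left _ hb'.ne']
      exact HahnSeries.embDomain_coeff
    · rw [if_neg hd]
      apply HahnSeries.embDomain_notin_range
      rintro ⟨v, hv⟩
      apply hd
      rw [← hv]
      exact dvd_mul_right _ _
  rw [key]
  simp only [Nat.cast_zero, zero_mul, sub_zero]
  split_ifs <;> simp

end Pool.Agent.W420.OPC
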