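import Mathlib
import Pool.Agent.W420.OPC.Defs
import Pool.Agent.H18R2.OPC.OPC_RUO

set_option autoImplicit false

open MvPolynomial

namespace Pool.Agent.W420.OPC

open Pool.Agent.H922R2.OPC Pool.Agent.H18R2.OPC

/-- `r` has a nonzero constant value at infinity on the first curve -/
theorem ruo2 (k : Type) [Field k] [IsAlgClosed k] [CharZero k] (hSPR : S_SPR k)
    (hEVF : S_EVF k) (D : TD k)
    (hpos : ∀ h : B k, Ge 1 (sp 0 (D.e₁ h)) → sp 0 (D.e₁ h) = 0)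
    (huv : ∃ u v, u * D.f₁ + v * D.r = 1) :
    Ge 0 (sp 0 (D.e₁ D.r)) ∧ (sp 0 (D.e₁ D.r)).coeff 0 ≠ 0 := by
  obtain ⟨R, hR⟩ := hSPR 0
  obtain ⟨u, v, h1⟩ := huv
  have h2 : R (D.e₁ u) * R (D.e₁ D.f₁) + R (D.e₁ v) * R (D.e₁ D.r) = 1 := by
    rw [← map_mul, ← map_mul, ← map_mul, ← map_mul, ← map_add, ← map_add, h1, map_one, map_one]
  have h3 : R (D.e₁ D.f₁) = 0 := by
    rw [hR]
    have h4 : D.e₁ D.f₁ = lam := hEVF D.n₁ D.f₁ D.φ₁ D.ζ₁ D.h₁
    rw [h4]
    exact ruo_sp_lam k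
  rw [h3, mul_zero, zero_add] at h2
  have hv0 : R (D.e₁ v) ≠ 0 := by
    intro h
    rw [h, zero_mul] at h2
    exact zero_ne_one h2
  have hr0 : R (D.e₁ D.r) ≠ 0 := by
    intro h
    rw [h, mul_zero] at h2
    exact zero_ne_one h2
  have hord : ∀ h : B k, R (D.e₁ h) ≠ 0 → (R (D.e₁ h)).order ≤ 0 := by
    intro h hne
    by_contra hlt
    push Not at hlt
    apply hne
    rw [hR]
    apply hpos
    intro i hi
    rw [← hR]
    exact HahnSeries.coeff_eq_zero_of_lt_order (by omega)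
  have h5 : (R (D.e₁ v) * R (D.e₁ D.r)).order = (R (D.e₁ v)).order + (R (D.e₁ D.r)).order :=
    HahnSeries.order_mul hv0 hr0
  rw [h2, HahnSeries.order_one] at h5
  have h6 := hord v hv0
  have h7 := hord D.r hr0
  have h8 : (R (D.e₁ D.r)).order = 0 := by omega
  rw [← hR]
  constructor
  · intro i hi
    exact HahnSeries.coeff_eq_zero_of_lt_order (by omega)
  · rw [← h8]
    exact fun h => hr0 (HahnSeries.coeff_order_eq_zero.1 h)


end Pool.Agent.W420.OPC
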