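import Mathlib
import Pool.Agent.W420.OPC.Defs
import Pool.Agent.H922R2.OPC.M.WLM

set_option autoImplicit false

open MvPolynomial

namespace Pool.Agent.W420.OPC

open Pool.Agent.H922R2.OPC Pool.Agent.H641R2.OPC_WLM

section
variable {k : Type} [Field k]

theorem push2 {a b a' b' n : ℕ} {Ψ : L k →+* L k} (hM : S_MUL) (hb : 0 < b) (hΨ : IsPsi a b Ψ)
    (E : B k →ₐ[k] L k) (f g : B k) (h0 : Ge (-((b' * n : ℕ) : ℤ)) (Ψ (E (X 0))))
    (h1 : Ge (a' : ℤ) (Ψ (E f))) (M : ℤ)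
    (hm : ∀ m ∈ g.support, M ≤ -((b' * n : ℕ) : ℤ) * (m 0 : ℤ) + a' * (m 1 : ℤ)) :
    Ge M (Ψ (E (aeval ![X 0, f] g))) := by
  rw [Pool.Agent.H641R2.OPC_WLM.expand]
  apply ge_sum
  intro m hms
  have h2 := (ge_pow hM h0 (m 0)).1
  have h3 := (ge_pow hM h1 (m 1)).1
  have h4 := (hM _ _ _ _ _ h2 h3).1
  have h5 : Ge 0 (Ψ (algebraMap k (L k) (g.coeff m))) := by
    rw [algMap, psi_single hb hΨ]
    intro i hi
    rw [HahnSeries.coeff_single_of_ne]
    intro h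
    rw [h] at hi
    simp at hi
  have h6 := (hM _ _ _ _ _ h5 h4).1
  refine ge_mono ?_ h6
  have h7 := hm m hms
  linarith



end

/-- the map respects the valuations -/
theorem wlm2 (k : Type) [Field k] [IsAlgClosed k] [CharZero k] (hMON : S_MON k)
    (hM : S_MUL) (hROT : S_ROT k) (hEVF : S_EVF k) (hINJ : S_INJ k) (hCHR : S_CHR k)
    (hPRG : S_PRG k) (D : TD k) (a₁ b₁ a₂ b₂ : ℕ) (Ψ₁ Ψ₂ : L k →+* L k) (hb₁ : 0 < b₁)
    (hb₂ : 0 < b₂) (hΨ₁ : IsPsi a₁ b₁ Ψ₁) (hΨ₂ : IsPsi a₂ b₂ Ψ₂)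
    (hP : Ge (-((b₂ * D.n₂ : ℕ) : ℤ)) (Ψ₁ (D.e₁ D.P)))
    (hf : Ge (a₂ : ℤ) (Ψ₁ (D.e₁ (D.F D.f₂)))) (h : B k) (w : ℤ) (hw : Ge w (Ψ₂ (D.e₂ h))) :
    Ge w (Ψ₁ (D.e₁ (D.F h))) := by
  have hOP := D.h₂
  have hn : 0 < D.n₂ := hOP.1
  have hE0 : D.e₂ (X 0) = tp (-(D.n₂ : ℤ)) := by
    show aeval ![tp (-(D.n₂ : ℤ)), D.φ₂] (X 0) = _
    rw [aeval_X]
    rfl
  have hEf : D.e₂ D.f₂ = lam := hEVF _ _ _ _ hOP
  choose g hg using hCHR hROT hEVF hMON _ _ _ _ hOP h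
  have hinj := hINJ hEVF hMON _ _ _ _ hOP
  -- the characteristic polynomial
  set s : ℕ → L k := fun i => rot (D.ζ₂ ^ i) (D.e₂ h) with hs
  set pol : Polynomial (L k) := ∏ i ∈ Finset.range D.n₂, (Polynomial.X - Polynomial.C (s i))
    with hpol
  have hcoef : ∀ l, pol.coeff l = D.e₂ (aeval ![X 0, D.f₂] (g l)) := hg
  have hmon : pol.Monic :=
    Polynomial.monic_prod_of_monic _ _ fun i _ => Polynomial.monic_X_sub_C _
  have hdeg : pol.natDegree = D.n₂ := by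
    rw [hpol, Polynomial.natDegree_prod_of_monic _ _ fun i _ => Polynomial.monic_X_sub_C _]
    simp
  have hroot : pol.eval (D.e₂ h) = 0 := by
    rw [hpol, Polynomial.eval_prod]
    apply Finset.prod_eq_zero (Finset.mem_range.2 hn)
    rw [Polynomial.eval_sub, Polynomial.eval_X, Polynomial.eval_C, hs]
    simp only [pow_zero]
    rw [rot_one, sub_self]
  have hrel : h ^ D.n₂ + ∑ l ∈ Finset.range D.n₂, aeval ![X 0, D.f₂] (g l) * h ^ l = 0 := by
    apply hinj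
    have h1 : D.e₂ (h ^ D.n₂ + ∑ l ∈ Finset.range D.n₂, aeval ![X 0, D.f₂] (g l) * h ^ l) = 0 := by
      rw [Polynomial.eval_eq_sum_range, hdeg, Finset.sum_range_succ] at hroot
      have h2 : pol.coeff D.n₂ = 1 := by
        rw [← hdeg]
        exact hmon
      rw [h2, one_mul] at hroot
      rw [map_add, map_sum, map_pow, add_comm]
      rw [← hroot]
      congr 1
      refine Finset.sum_congr rfl fun l _ => ?_
      rw [map_mul, map_pow, ← hcoef]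
    have h3 : D.e₂ = ev D.n₂ D.φ₂ := rfl
    rw [← h3, h1, map_zero]
  -- valuations of the coefficients
  have hco : ∀ l ≤ D.n₂, Ge (((D.n₂ : ℤ) - l) * w) (Ψ₂ (D.e₂ (aeval ![X 0, D.f₂] (g l)))) := by
    intro l hl
    have h1 := hPRG hM D.n₂ (fun i => Ψ₂ (s i)) w (fun i _ => ge_rot hΨ₂ _ hw) l hl
    have h2 : (∏ i ∈ Finset.range D.n₂, (Polynomial.X - Polynomial.C (Ψ₂ (s i)))) =
        pol.map Ψ₂ := by
      rw [hpol, Polynomial.map_prod]
      refine Finset.prod_congr rfl fun i _ => ?_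
      rw [Polynomial.map_sub, Polynomial.map_X, Polynomial.map_C]
    rw [h2, Polynomial.coeff_map, hcoef] at h1
    exact h1
  let E' : B k →ₐ[k] L k := D.e₁.comp D.F
  have hX0 : E' (X 0) = D.e₁ D.P := by
    show D.e₁ (D.F (X 0)) = _
    congr 1
    show aeval ![D.P, D.Q] (X 0) = _
    rw [aeval_X]
    rfl
  have hco' : ∀ l ≤ D.n₂, Ge (((D.n₂ : ℤ) - l) * w) (Ψ₁ (E' (aeval ![X 0, D.f₂] (g l)))) := by
    intro l hl
    apply push2 (a' := a₂) (b' := b₂) (n := D.n₂) hM hb₁ hΨ₁ E' D.f₂ (g l)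
    · rw [hX0]; exact hP
    · exact hf
    · intro m hm
      exact supp_bound hb₂ hn hΨ₂ D.e₂ D.f₂ (g l) hE0 hEf _ (hco l hl) m hm
  -- the end
  show Ge w (Ψ₁ (E' h))
  by_contra hcon
  set Y : L k := Ψ₁ (E' h) with hY
  have hrel' : Y ^ D.n₂ =
      -∑ l ∈ Finset.range D.n₂, Ψ₁ (E' (aeval ![X 0, D.f₂] (g l))) * Y ^ l := by
    have h1 := congrArg (fun q => Ψ₁ (E' q)) hrel
    simp only [map_add, map_sum, map_mul, map_pow, map_zero] at h1
    rw [eq_neg_iff_add_eq_zero]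
    exact h1
  unfold Ge at hcon
  push Not at hcon
  obtain ⟨i, hi, hi0⟩ := hcon
  have hY0 : Y ≠ 0 := by
    intro h0
    rw [h0] at hi0
    exact hi0 rfl
  have hord : Y.order < w := by
    refine lt_of_le_of_lt ?_ hi
    by_contra hlt
    push Not at hlt
    exact hi0 (HahnSeries.coeff_eq_zero_of_lt_order hlt)
  have hGe : Ge Y.order Y := fun j hj => HahnSeries.coeff_eq_zero_of_lt_order hj
  have hne : Y.coeff Y.order ≠ 0 := fun h0 => hY0 (HahnSeries.coeff_order_eq_zero.1 h0)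
  have hpw := (ge_pow hM hGe D.n₂).2
  have hzero : (Y ^ D.n₂).coeff (D.n₂ * Y.order) = 0 := by
    rw [hrel']
    have h1 : Ge (D.n₂ * Y.order + 1)
        (-∑ l ∈ Finset.range D.n₂, Ψ₁ (E' (aeval ![X 0, D.f₂] (g l))) * Y ^ l) := by
      apply ge_neg
      apply ge_sum
      intro l hl
      have hl' := Finset.mem_range.1 hl
      have h2 := (hM _ _ _ _ _ (hco' l hl'.le) (ge_pow hM hGe l).1).1
      refine ge_mono ?_ h2
      have h3 : (1 : ℤ) ≤ (D.n₂ : ℤ) - l := by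
        have : (l : ℤ) < D.n₂ := by exact_mod_cast hl'
        linarith
      have h4 : Y.order + 1 ≤ w := hord
      nlinarith
    exact h1 _ (by linarith)
  rw [hzero] at hpw
  exact hne (pow_eq_zero_iff (hn.ne') |>.1 hpw.symm)


end Pool.Agent.W420.OPC
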