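import Mathlib
import Pool.Agent.H922R2.OPC.Final2
import Pool.Agent.W420.OPC.WLM2
import Pool.Agent.W420.OPC.GFY2
import Pool.Agent.W420.OPC.JID2
import Pool.Agent.W420.OPC.LCX2
import Pool.Agent.W420.OPC.HPR2
import Pool.Agent.W420.OPC.RUO2
import Pool.Agent.W420.OPC.ITG2
import Pool.Agent.W420.OPC.Psi2

/-! Assembly. -/

set_option autoImplicit false

open MvPolynomial

namespace Pool.Agent.W420.OPC

open Pool.Agent.H922R2.OPC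

variable {k : Type} [Field k] [IsAlgClosed k] [CharZero k]

/-- the equation satisfied by the lowest terms of `P` and `r` -/
theorem step (M : Mods k) (D : TD k) (N : ℕ) (hN : 0 < N) (a b : ℕ) (hb : 0 < b)
    (Ψ Ψ₁ Ψ₂ : L k →+* L k) (hΨ : IsPsi a b Ψ) (hΨ₁ : IsPsi (a * D.n₂) (b * D.n₂) Ψ₁)
    (hΨ₂ : IsPsi (a * D.n₂) (b * N) Ψ₂)
    (g1 : Ge (-((b * N : ℕ) : ℤ)) (Ψ (D.e₁ D.P))) (g2 : Ge 0 (Ψ (D.e₁ D.r)))
    (g3 : ((Ψ (D.e₁ D.P)).coeff (-((b * N : ℕ) : ℤ))).coeff 0 ≠ 0)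
    (g4 : ((Ψ (D.e₁ D.r)).coeff 0).coeff 0 ≠ 0)
    (e1 : ℕ) (κ1 : k) (hκ1 : κ1 ≠ 0) (hfy1 : Ge (-(e1 : ℤ)) (D.e₁ (pderiv 1 D.f₁)))
    (hfy1' : (D.e₁ (pderiv 1 D.f₁)).coeff (-(e1 : ℤ)) = Polynomial.C κ1)
    (e2 : ℕ) (κ2 : k) (hκ2 : κ2 ≠ 0) (hfy2 : Ge (-(e2 : ℤ)) (D.e₂ (pderiv 1 D.f₂)))
    (hfy2' : (D.e₂ (pderiv 1 D.f₂)).coeff (-(e2 : ℤ)) = Polynomial.C κ2) :
    ∃ c' : k, c' ≠ 0 ∧
    (((b * N * D.n₂ : ℕ) : Polynomial k) * (((Ψ (D.e₁ D.r)).coeff 0) *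
      ((Ψ (D.e₁ D.P)).coeff (-((b * N : ℕ) : ℤ))) +
      Polynomial.X * Polynomial.derivative ((Ψ (D.e₁ D.r)).coeff 0) *
        ((Ψ (D.e₁ D.P)).coeff (-((b * N : ℕ) : ℤ)))) +
      ((a * D.n₂ : ℕ) : Polynomial k) * (Polynomial.X * ((Ψ (D.e₁ D.r)).coeff 0) *
        Polynomial.derivative ((Ψ (D.e₁ D.P)).coeff (-((b * N : ℕ) : ℤ))))) ^ D.n₂ =
      Polynomial.C c' * ((Ψ (D.e₁ D.P)).coeff (-((b * N : ℕ) : ℤ))) ^ e2 := by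
  have hMUL := M.mul
  obtain ⟨dX, dT, hdX, hdT⟩ := M.der
  have hn2 : 0 < D.n₂ := D.h₂.1
  have hb₁ : 0 < b * D.n₂ := Nat.mul_pos hb hn2
  have hb₂ : 0 < b * N := Nat.mul_pos hb hN
  have evf1 : D.e₁ D.f₁ = lam := M.evf D.n₁ D.f₁ D.φ₁ D.ζ₁ D.h₁
  have hFf2 : D.F D.f₂ = D.f₁ * D.r := D.hr
  have q1 : (-((b * N * D.n₂ : ℕ) : ℤ)) = (D.n₂ : ℤ) * (-((b * N : ℕ) : ℤ)) := by push_cast; ring
  have q0 : (0 : ℤ) = (D.n₂ : ℤ) * 0 := by ring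
  have c1 : (Ψ₁ (D.e₁ D.P)).coeff (-((b * N * D.n₂ : ℕ) : ℤ)) =
      (Ψ (D.e₁ D.P)).coeff (-((b * N : ℕ) : ℤ)) := by
    rw [q1, psi_scale hn2 hΨ hΨ₁]
  have c0 : (Ψ₁ (D.e₁ D.r)).coeff 0 = (Ψ (D.e₁ D.r)).coeff 0 := by
    conv_lhs => rw [q0]
    rw [psi_scale hn2 hΨ hΨ₁]
  have G1 : Ge (-((b * N * D.n₂ : ℕ) : ℤ)) (Ψ₁ (D.e₁ D.P)) := by
    rw [q1]; exact psi_scale_ge hn2 hΨ hΨ₁ g1
  have G2 : Ge 0 (Ψ₁ (D.e₁ D.r)) := by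
    rw [q0]; exact psi_scale_ge hn2 hΨ hΨ₁ g2
  have hlam : Ψ₁ lam = HahnSeries.single ((a * D.n₂ : ℕ) : ℤ) Polynomial.X :=
    Pool.Agent.H323R2.OPCJ.psi_X hb₁ hΨ₁
  have hFf : Ψ₁ (D.e₁ (D.F D.f₂)) =
      HahnSeries.single ((a * D.n₂ : ℕ) : ℤ) Polynomial.X * Ψ₁ (D.e₁ D.r) := by
    rw [hFf2, map_mul, map_mul, evf1, hlam]
  have hsa : Ge ((a * D.n₂ : ℕ) : ℤ)
      (HahnSeries.single ((a * D.n₂ : ℕ) : ℤ) (Polynomial.X : Polynomial k)) := by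
    intro i hi
    rw [HahnSeries.coeff_single_of_ne (by omega)]
  have hFfGe : Ge ((a * D.n₂ : ℕ) : ℤ) (Ψ₁ (D.e₁ (D.F D.f₂))) := by
    rw [hFf]
    have := (hMUL (Polynomial k) ((a * D.n₂ : ℕ) : ℤ) 0 _ _ hsa G2).1
    rwa [add_zero] at this
  have wlm := wlm2 k M.mon hMUL M.rot M.evf M.inj M.chr M.prg D (a * D.n₂) (b * D.n₂) (a * D.n₂)
    (b * N) Ψ₁ Ψ₂ hb₁ hb₂ hΨ₁ hΨ₂ G1 hFfGe
  obtain ⟨k1, k2⟩ := gfy2 k hMUL D (a * D.n₂) (b * D.n₂) (a * D.n₂) (b * N) Ψ₁ Ψ₂ hb₁ hb₂ hΨ₁ hΨ₂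
    wlm G1 e2 κ2 hκ2 hfy2 hfy2'
  obtain ⟨c, hc, hid⟩ := jid2 k M.chn M.jsb M.evf D (a * D.n₂) (b * D.n₂) Ψ₁ hb₁ hΨ₁ dX dT hdX hdT
  have h := lcx2 k hMUL D (a * D.n₂) (b * D.n₂) (b * N) Ψ₁ hb₁ hb₂ hΨ₁ dX dT hdX hdT c hc hid hFf
    G1 G2 (by rw [c1]; exact g3) (by rw [c0]; exact g4) e1 κ1 hκ1 hfy1 hfy1' e2 κ2 hκ2 k1 k2
  rw [c1, c0] at h
  exact h

theorem main2 (M : Mods k) (D : TD k) (huv : ∃ u v, u * D.f₁ + v * D.r = 1) :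
    ∀ z : B k, (D.F : B k →ₐ[k] B k).toRingHom.IsIntegralElem z := by
  have hMUL := M.mul
  have hn1 : 0 < D.n₁ := D.h₁.1
  have hn2 : 0 < D.n₂ := D.h₂.1
  have dst1 := M.dst M.der M.chn M.evf M.rot D.n₁ D.f₁ D.φ₁ D.ζ₁ D.h₁
  have dst2 := M.dst M.der M.chn M.evf M.rot D.n₂ D.f₂ D.φ₂ D.ζ₂ D.h₂
  have pos1 := M.pos hMUL M.rot M.evf M.inj M.chr D.n₁ D.f₁ D.φ₁ D.ζ₁ D.h₁
  have pos2 := M.pos hMUL M.rot M.evf M.inj M.chr D.n₂ D.f₂ D.φ₂ D.ζ₂ D.h₂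
  obtain ⟨e1, κ1, hκ1, hfy1, hfy1'⟩ := M.fy hMUL M.dst D.n₁ D.f₁ D.φ₁ D.ζ₁ D.h₁ dst1.1 pos1
  obtain ⟨e2, κ2, hκ2, hfy2, hfy2'⟩ := M.fy hMUL M.dst D.n₂ D.f₂ D.φ₂ D.ζ₂ D.h₂ dst2.1 pos2
  have res2 : e2 ≠ D.n₂ := M.res hMUL M.rot M.evf D.n₂ D.f₂ D.φ₂ D.ζ₂ D.h₂ dst2.2 dst2.1 e2 κ2 hκ2
    hfy2 hfy2'
  have cop2 := M.cop M.spr M.rot M.evf M.mon M.inj M.chr D.n₂ D.f₂ D.φ₂ D.ζ₂ D.h₂
  have spp1 := M.spp hMUL M.spr M.rot M.evf M.inj M.chr D.n₁ D.f₁ D.φ₁ D.ζ₁ D.h₁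
  have ncn1 := M.ncn M.spr D.n₁ D.φ₁ hn1 D.P D.Q D.hJ
  have ruo := ruo2 k M.spr M.evf D (spp1 0) huv
  obtain ⟨N, hN, hNge, hNco⟩ := ncpP k M.spr M.evf M.mon D.n₁ D.f₁ D.φ₁ D.ζ₁ D.n₂ D.f₂ D.φ₂ D.ζ₂
    D.P D.Q D.r D.h₁ D.h₂ D.hr (spp1 0) (ncn1 0)
  have hFf2 : D.F D.f₂ = D.f₁ * D.r := D.hr
  -- the dichotomy
  have key : Ge (-(N : ℤ)) (D.e₁ D.P) ∧ Ge 0 (D.e₁ D.r) := by
    rcases M.slp (D.e₁ D.P) (D.e₁ D.r) N hNge hNco ruo.1 ruo.2 with h | ⟨a, b, ha, hb, h⟩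
    · exact h
    · exfalso
      obtain ⟨Ψ, hΨ⟩ := M.psi a b ha hb
      obtain ⟨Ψ₁, hΨ₁⟩ := M.psi (a * D.n₂) (b * D.n₂) (Nat.mul_pos ha hn2) (Nat.mul_pos hb hn2)
      obtain ⟨Ψ₂, hΨ₂⟩ := M.psi (a * D.n₂) (b * N) (Nat.mul_pos ha hn2) (Nat.mul_pos hb hN)
      obtain ⟨g1, g2, g3, g4, g5⟩ := h Ψ hΨ
      obtain ⟨c', hc', hE⟩ := step M D N hN a b hb Ψ Ψ₁ Ψ₂ hΨ hΨ₁ hΨ₂ g1 g2 g3 g4 e1 κ1 hκ1
        hfy1 hfy1' e2 κ2 hκ2 hfy2 hfy2'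
      exact g5 (M.ode _ _ (a * D.n₂) (b * N) D.n₂ e2 c' (Nat.mul_pos ha hn2) (Nat.mul_pos hb hN)
        hn2 hc' g3 g4 hE)
  obtain ⟨hP, hr⟩ := key
  -- slope zero
  obtain ⟨s, hs⟩ : ∃ s, s = (D.e₁ D.r).coeff 0 := ⟨_, rfl⟩
  have hrs : D.r = Polynomial.aeval D.f₁ s := by
    rw [hs]; exact M.nng M.evf D.n₁ D.f₁ D.φ₁ D.ζ₁ D.h₁ pos1 D.r hr
  obtain ⟨H, hH⟩ : ∃ H : Polynomial k, H = Polynomial.X * s := ⟨_, rfl⟩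
  have hFH : D.F D.f₂ = Polynomial.aeval D.f₁ H := by
    rw [hFf2, hH, map_mul, Polynomial.aeval_X]
    exact congrArg (D.f₁ * ·) hrs
  have hs0 : s.coeff 0 ≠ 0 := by
    have h := ruo.2
    have h1 : (sp 0 (D.e₁ D.r)).coeff 0 = s.eval 0 := by simp [sp, hs]
    rw [h1, ← Polynomial.coeff_zero_eq_eval_zero] at h
    exact h
  have hH0 : Polynomial.derivative H ≠ 0 := by
    intro h0
    have h1 := congrArg (fun q : Polynomial k => q.coeff 0) h0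
    simp [hH, Polynomial.coeff_derivative] at h1
    exact hs0 h1
  obtain ⟨A, hA⟩ : ∃ A, A = (D.e₁ D.P).coeff (-(N : ℤ)) := ⟨_, rfl⟩
  have hAc : A.coeff 0 ≠ 0 := by
    intro h0
    apply hNco
    simp only [sp, HahnSeries.map_coeff]
    change Polynomial.evalRingHom 0 ((D.e₁ D.P).coeff (-(N : ℤ))) = 0
    rw [← hA, Polynomial.coe_evalRingHom, ← Polynomial.coeff_zero_eq_eval_zero, h0]
  have hA0 : A ≠ 0 := by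
    intro h0
    exact hAc (by rw [h0, Polynomial.coeff_zero])
  obtain ⟨Ψ₁, hΨ₁⟩ := psi_exists (k := k) D.n₂ hn2
  obtain ⟨Ψ₂, hΨ₂⟩ := psi_exists (k := k) N hN
  obtain ⟨c', hc', hE⟩ := step M D N hN 0 1 one_pos (RingHom.id _) Ψ₁ Ψ₂ isPsi_id
    (by rw [zero_mul, one_mul]; exact hΨ₁) (by rw [zero_mul, one_mul]; exact hΨ₂)
    (by rw [one_mul]; exact hP) hr (by rw [one_mul, RingHom.id_apply, ← hA]; exact hAc)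
    (by rw [RingHom.id_apply, ← hs]; exact hs0) e1 κ1 hκ1
    hfy1 hfy1' e2 κ2 hκ2 hfy2 hfy2'
  simp only [one_mul, RingHom.id_apply, zero_mul, Nat.cast_zero, add_zero, ← hA, ← hs] at hE
  have hH' : Polynomial.derivative H = s + Polynomial.X * Polynomial.derivative s := by
    rw [hH, Polynomial.derivative_mul, Polynomial.derivative_X, one_mul]
  have hE' : (((N * D.n₂ : ℕ) : Polynomial k) * (Polynomial.derivative H * A)) ^ D.n₂ =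
      Polynomial.C c' * A ^ e2 := by
    rw [← hE, hH', add_mul]
  have hpr := hpr2 k M.spr M.evf M.mon M.jsb D H hFH cop2 dst2.1 ncn1
  have hH'deg : (Polynomial.derivative H).natDegree = 0 := by
    by_contra hne
    have hdeg : (Polynomial.derivative H).degree ≠ 0 := by
      intro h0
      exact hne (Polynomial.natDegree_eq_of_degree_eq_some h0)
    obtain ⟨μ, hμ⟩ := IsAlgClosed.exists_root _ hdeg
    exact hpr μ hμ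
  have hNn : ((N * D.n₂ : ℕ) : k) ≠ 0 := by
    exact_mod_cast (Nat.mul_pos hN hn2).ne'
  have hAdeg : A.natDegree = 0 := by
    have h1 := congrArg Polynomial.natDegree hE'
    have e : (((N * D.n₂ : ℕ) : Polynomial k)) = Polynomial.C (((N * D.n₂ : ℕ) : k)) := by
      simp
    rw [Polynomial.natDegree_pow, e, Polynomial.natDegree_C_mul hNn,
      Polynomial.natDegree_mul hH0 hA0, hH'deg, zero_add,
      Polynomial.natDegree_C_mul hc', Polynomial.natDegree_pow] at h1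
    by_contra hne
    exact res2 (Nat.eq_of_mul_eq_mul_right (Nat.pos_of_ne_zero hne) h1).symm
  obtain ⟨π, hπ⟩ : ∃ π : k, A = Polynomial.C π :=
    ⟨A.coeff 0, Polynomial.eq_C_of_natDegree_eq_zero hAdeg⟩
  have hπ0 : π ≠ 0 := by
    intro h0
    apply hA0
    rw [hπ, h0, Polynomial.C_0]
  -- `H` is linear
  have hsdeg : s = Polynomial.C (s.coeff 0) := by
    have h1 : H.natDegree ≤ 1 := by
      by_contra hgt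
      push Not at hgt
      have h3 : (Polynomial.derivative H).natDegree = H.natDegree - 1 :=
        Polynomial.natDegree_eq_of_degree_eq_some (Polynomial.degree_derivative_eq H (by omega))
      omega
    have hs0' : s ≠ 0 := by
      intro h0
      apply hs0
      rw [h0, Polynomial.coeff_zero]
    have h2 : H.natDegree = 1 + s.natDegree := by
      rw [hH, Polynomial.natDegree_mul Polynomial.X_ne_zero hs0', Polynomial.natDegree_X]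
    exact Polynomial.eq_C_of_natDegree_eq_zero (by omega)
  have hlin : D.F D.f₂ = C (s.coeff 0) * D.f₁ := by
    have h1 : D.r = C (s.coeff 0) := by
      rw [hrs]
      conv_lhs => rw [hsdeg]
      rw [Polynomial.aeval_C]
      rfl
    rw [hFf2, h1, mul_comm]
  exact itg2 k hMUL M.prg M.rot M.evf M.inj M.chr M.mon D N hN (s.coeff 0) π hs0 hπ0 hlin hP
    (by rw [← hA, hπ])

end Pool.Agent.W420.OPC
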