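import Mathlib
import Pool.Agent.W420.OPC.Main2

/-! From integrality to the inverse; change of coordinates; the condition on points. -/

set_option autoImplicit false

open MvPolynomial

namespace Pool.Agent.W420.OPC

open Pool.Agent.H922R2.OPC

variable {k : Type} [Field k]

theorem concl2 [IsAlgClosed k] [CharZero k] (M : Mods k) (P Q f₁ f₂ r : B k)
    (hJ : IsUnit (jac P Q)) (Φ₁ Φ₂ : B k ≃ₐ[k] B k) (n₁ n₂ : ℕ) (φ₁ φ₂ : L k) (ζ₁ ζ₂ : k)
    (h₁ : OP n₁ (Φ₁ f₁) φ₁ ζ₁) (h₂ : OP n₂ (Φ₂ f₂) φ₂ ζ₂) (hmap : sb P Q f₂ = f₁ * r)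
    (huv : ∃ u v, u * f₁ + v * r = 1) :
    ∃ G : Fin 2 → B k, (∀ i, aeval ![P, Q] (G i) = X i) ∧ (∀ i, aeval G (![P, Q] i) = X i) := by
  obtain ⟨Ψ, hΨ⟩ : ∃ Ψ : B k →ₐ[k] B k, ∀ h, Ψ h = Φ₁ (sb P Q (Φ₂.symm h)) :=
    ⟨(Φ₁ : B k →ₐ[k] B k).comp ((sb P Q).comp (Φ₂.symm : B k →ₐ[k] B k)), fun h => rfl⟩
  have hr : Ψ (Φ₂ f₂) = Φ₁ f₁ * Φ₁ r := by
    rw [hΨ, AlgEquiv.symm_apply_apply, hmap, map_mul]
  have hJ' : IsUnit (jac (Ψ (X 0)) (Ψ (X 1))) := by
    rw [hΨ, hΨ]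
    have e1 := jac_map M.jsb (Φ₁ : B k →ₐ[k] B k) (sb P Q (Φ₂.symm (X 0))) (sb P Q (Φ₂.symm (X 1)))
    have e2 := M.jsb P Q (Φ₂.symm (X 0)) (Φ₂.symm (X 1))
    simp only [AlgHom.coe_coe, AlgEquiv.coe_toAlgHom] at e1
    rw [e1, e2, map_mul]
    exact (((jac_equiv M.jsb Φ₂.symm).map (sb P Q)).map Φ₁ |>.mul (hJ.map Φ₁)).mul
      (jac_equiv M.jsb Φ₁)
  let D : TD k :=
    { n₁ := n₁, n₂ := n₂, f₁ := Φ₁ f₁, f₂ := Φ₂ f₂, φ₁ := φ₁, φ₂ := φ₂, ζ₁ := ζ₁, ζ₂ := ζ₂
      P := Ψ (X 0), Q := Ψ (X 1), r := Φ₁ r, h₁ := h₁, h₂ := h₂, hJ := hJ'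
      hr := by rw [sb_eq, hr] }
  have huv' : ∃ u v, u * D.f₁ + v * D.r = 1 := by
    obtain ⟨u, v, h⟩ := huv
    refine ⟨Φ₁ u, Φ₁ v, ?_⟩
    show Φ₁ u * Φ₁ f₁ + Φ₁ v * Φ₁ r = 1
    rw [← map_mul, ← map_mul, ← map_add, h, map_one]
  have hint := main2 M D huv'
  have hF : D.F = Ψ := sb_eq Ψ
  rw [hF] at hint
  have hint' : ∀ z : B k, (aeval ![P, Q] : B k →ₐ[k] B k).toRingHom.IsIntegralElem z := by
    intro z
    obtain ⟨p, hp, hpz⟩ := hint (Φ₁ z)
    refine ⟨p.map (Φ₂.symm : B k →+* B k), hp.map _, ?_⟩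
    apply Φ₁.injective
    rw [map_zero, ← hpz, Polynomial.eval₂_map]
    have := Polynomial.hom_eval₂ p (((aeval ![P, Q] : B k →ₐ[k] B k).toRingHom).comp
      (Φ₂.symm : B k →+* B k)) (Φ₁ : B k →+* B k) z
    refine Eq.trans this ?_
    congr 1
    apply RingHom.ext
    intro g
    exact (hΨ g).symm
  have hdet : IsUnit (Matrix.det (Pool.Agent.H922R2.jac (![P, Q] : Fin 2 → B k))) := by
    rw [Matrix.det_fin_two]
    have : Pool.Agent.H922R2.jac (![P, Q] : Fin 2 → B k) 0 0 *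
        Pool.Agent.H922R2.jac (![P, Q] : Fin 2 → B k) 1 1 -
        Pool.Agent.H922R2.jac (![P, Q] : Fin 2 → B k) 0 1 *
        Pool.Agent.H922R2.jac (![P, Q] : Fin 2 → B k) 1 0 = jac P Q := by
      simp [Pool.Agent.H922R2.jac, jac]
    rw [this]
    exact hJ
  have htop := Pool.Agent.H922R2.le_SS_of_integral (![P, Q] : Fin 2 → B k) hdet ⊤ (fun i b _ => Algebra.mem_top)
    (fun i => Algebra.mem_top) (fun b _ => hint' b)
  exact Pool.Agent.H922R2.inverse_of_top (![P, Q] : Fin 2 → B k) hdet (top_le_iff.1 htop)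

/-- chain rule -/
theorem pderiv_sb (P Q h : B k) (i : Fin 2) :
    pderiv i (sb P Q h) = sb P Q (pderiv 0 h) * pderiv i P + sb P Q (pderiv 1 h) * pderiv i Q := by
  induction h using MvPolynomial.induction_on with
  | C c =>
    have : sb P Q (C c) = C c := AlgHom.commutes _ c
    rw [this]
    simp
  | add p q hp hq =>
    simp only [map_add, hp, hq]
    ring
  | mul_X p j hp =>
    fin_cases j
    · have e : sb P Q (X 0) = P := by simp [sb]
      simp only [Fin.zero_eta, map_mul, Derivation.leibniz, smul_eq_mul, map_add, hp, e,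
        pderiv_X_self, map_one, pderiv_X_of_ne (by decide : (0 : Fin 2) ≠ 1), map_zero]
      ring
    · have e : sb P Q (X 1) = Q := by simp [sb]
      simp only [Fin.mk_one, map_mul, Derivation.leibniz, smul_eq_mul, map_add, hp, e,
        pderiv_X_self, map_one, pderiv_X_of_ne (by decide : (1 : Fin 2) ≠ 0), map_zero]
      ring

/-- a common zero of `f₁` and `r` is mapped to a singular point of `f₂ = 0` -/
theorem sing (P Q f₁ f₂ r : B k) (hJ : IsUnit (jac P Q)) (hmap : sb P Q f₂ = f₁ * r)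
    (p : Fin 2 → k) (h1 : eval p f₁ = 0) (h2 : eval p r = 0) (i : Fin 2) :
    eval ![eval p P, eval p Q] (pderiv i f₂) = 0 := by
  have hev : ∀ h : B k, eval p (sb P Q h) = eval ![eval p P, eval p Q] h := by
    intro h
    rw [eval_map_pt (sb P Q) p h]
    congr 2
    funext j
    fin_cases j <;> simp [sb]
  have h0 : ∀ j, eval p (pderiv j (sb P Q f₂)) = 0 := by
    intro j
    rw [hmap, Derivation.leibniz, smul_eq_mul, smul_eq_mul, map_add, map_mul, map_mul, h1, h2]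
    ring
  have e0 := h0 0
  have e1 := h0 1
  rw [pderiv_sb, map_add, map_mul, map_mul, hev, hev] at e0 e1
  have hd : eval p (jac P Q) ≠ 0 := (hJ.map (eval p)).ne_zero
  have hd' : eval p (jac P Q) = eval p (pderiv 0 P) * eval p (pderiv 1 Q) -
      eval p (pderiv 1 P) * eval p (pderiv 0 Q) := by
    simp [jac]
  rw [hd'] at hd
  fin_cases i
  · have : (eval p (pderiv 0 P) * eval p (pderiv 1 Q) -
      eval p (pderiv 1 P) * eval p (pderiv 0 Q)) * eval ![eval p P, eval p Q] (pderiv 0 f₂) = 0 := by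
      linear_combination (eval p (pderiv 1 Q)) * e0 - (eval p (pderiv 0 Q)) * e1
    exact (mul_eq_zero.1 this).resolve_left hd
  · have : (eval p (pderiv 0 P) * eval p (pderiv 1 Q) -
      eval p (pderiv 1 P) * eval p (pderiv 0 Q)) * eval ![eval p P, eval p Q] (pderiv 1 f₂) = 0 := by
      linear_combination (eval p (pderiv 0 P)) * e1 - (eval p (pderiv 1 P)) * e0
    exact (mul_eq_zero.1 this).resolve_left hd

/-- polynomials without common zero are comaximal -/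
theorem comax [IsAlgClosed k] (f r : B k) (h : ∀ p : Fin 2 → k, eval p f = 0 → eval p r = 0 → False) :
    ∃ u v, u * f + v * r = 1 := by
  have htop : Ideal.span {f, r} = ⊤ := by
    by_contra hne
    obtain ⟨m, hm, hle⟩ := Ideal.exists_le_maximal _ hne
    obtain ⟨x, hx⟩ := MvPolynomial.isMaximal_iff_eq_vanishingIdeal_singleton.1 hm
    have hf : f ∈ m := hle (Ideal.subset_span (by simp))
    have hr : r ∈ m := hle (Ideal.subset_span (by simp))
    rw [hx, MvPolynomial.mem_vanishingIdeal_singleton_iff, MvPolynomial.aeval_eq_eval] at hf hr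
    exact h x hf hr
  have h1 : (1 : B k) ∈ Ideal.span {f, r} := by rw [htop]; exact Submodule.mem_top
  rw [Ideal.mem_span_pair] at h1
  exact h1

end Pool.Agent.W420.OPC
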